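import Pool.Agent.Helper116_EM.PiE

set_option autoImplicit false

/-!
# `Γ(1/n)` and the incomplete gamma values `Γ(1/n, s^n)`: a joint measure of algebraic independence

Let `n ≥ 2` (for the problem `n = 5`).  For a rational number `s ≥ 0` let
`T(s) = Γ(1/n) - n ∫_0^s exp (-u^n) du`; this is the upper incomplete gamma function `Γ(1/n, s^n)`, and
`T(0) = Γ(1/n)`.

Let `u_0, …, u_m` be the numbers `T(s)` for different rational numbers `s ≥ 0`, and let `D` be given.
There are `κ` and `c > 0` such that for all nonzero polynomials `P` (in one variable) and `Q` (in `m`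
variables) with integer coefficients, of total degree at most `D` and with coefficients of absolute
value at most `H`
`max (|P(u_0)|, |Q(u_1, …, u_m)|) ≥ c H^(-κ)`.

In particular at every scale `H` at most one of the numbers `T(s)` has a very good approximation by a
rational number (or by an algebraic number of bounded degree) of height at most `H`. If `Γ(1/n)` is
rational, then the numbers `T(s)`, `s > 0`, are algebraically independent, with this measure.
-/

namespace Pool.Agent.Results.MP_bb5a7d_nt.JointMeasureOfTails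

open Finset MeasureTheory
open Pool.Agent.Helper116_EM (names_main)
open Pool.Agent.R352.T (EA EB EA_eq EA_deriv EA_zero_left EA_alg_Q PI)
open Pool.Agent.R352.E (clF subset_clF indep_of_span of_pow rat_mem)

/-- the incomplete gamma value `Γ(1/n, s^n)` -/
noncomputable def T (n : ℕ) (s : ℚ) : ℝ :=
  Real.Gamma (1 / n) - n * ∫ u in (0 : ℝ)..s, Real.exp (-u ^ n)

lemma int_eq (n : ℕ) (hn : 2 ≤ n) (s : ℝ) :
    n * ∫ u in (0 : ℝ)..s, Real.exp (-u ^ n) = s * (n - EA (1 / n) 1 (s ^ n)) := by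
  have hn0 : (n : ℝ) ≠ 0 := by
    have : (0 : ℝ) < n := by exact_mod_cast (by omega : 0 < n)
    exact this.ne'
  set F : ℝ → ℝ := fun s => s * (n - EA (1 / n) 1 (s ^ n)) / n with hF
  have hd : ∀ s : ℝ, HasDerivAt F (Real.exp (-s ^ n)) s := by
    intro s
    have h1 : HasDerivAt (fun s : ℝ => s ^ n) (n * s ^ (n - 1)) s := hasDerivAt_pow n s
    have h2 := EA_deriv (a := (1 / n : ℝ)) (by positivity) 0 (s ^ n)
    have h3 : HasDerivAt (fun s : ℝ => EA (1 / n) (0 + 1) (s ^ n))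
        ((EB (1 / n) 0 (s ^ n) - 1 / n * EB (1 / n) (0 + 1) (s ^ n)) * (n * s ^ (n - 1))) s :=
      HasDerivAt.comp (h := fun s : ℝ => s ^ n) s h2 h1
    have h4 := ((hasDerivAt_id s).mul (h3.const_sub (n : ℝ))).div_const (n : ℝ)
    refine h4.congr_deriv ?_
    have h5 := EA_eq (a := (1 / n : ℝ)) 1 (s ^ n)
    have h6 := EA_eq (a := (1 / n : ℝ)) 0 (s ^ n)
    rw [EA_zero_left] at h6
    simp only [id, zero_add]
    rw [h5]
    have h7 : Real.exp (-s ^ n) = 1 - s ^ n * EB (1 / n) 0 (s ^ n) := by linarith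
    have h8 : s * s ^ (n - 1) = s ^ n := by
      rw [← pow_succ']
      congr 1
      omega
    rw [h7]
    have e1 : s * -((EB (1 / n) 0 (s ^ n) - 1 / n * EB (1 / n) 1 (s ^ n)) * (n * s ^ (n - 1))) =
        -((EB (1 / n) 0 (s ^ n) - 1 / n * EB (1 / n) 1 (s ^ n)) * n) * (s * s ^ (n - 1)) := by ring
    rw [e1, h8]
    field_simp
    ring
  rw [intervalIntegral.integral_eq_sub_of_hasDerivAt (fun t _ => hd t)
    ((Real.continuous_exp.comp (continuous_pow n).neg).intervalIntegrable _ _)]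
  simp only [hF]
  field_simp
  ring

/-- names: nonnegative rational numbers -/
abbrev NG : Type := {s : ℚ // 0 ≤ s}

/-- the offsets -/
noncomputable def off (n : ℕ) (s : NG) : ℝ := (s : ℚ) * (n - EA (1 / n) 1 ((s : ℚ) ^ n))

lemma T_eq (n : ℕ) (hn : 2 ≤ n) (s : NG) : T n s = Real.Gamma (1 / n) - off n s := by
  rw [T, int_eq n hn, off]

lemma off_indep (n : ℕ) (hn : 2 ≤ n) :
    AlgebraicIndependent ℚ (fun z : {b : NG // b ≠ ⟨0, le_rfl⟩} => off n z) := by
  classical
  have hn1 : (1 : ℚ) < n := by exact_mod_cast (by omega : 1 < n)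
  have hn0 : (0 : ℚ) < n := by linarith
  have hpos : ∀ z : {b : NG // b ≠ ⟨0, le_rfl⟩}, 0 < (z.1.1 : ℚ) := fun z =>
    lt_of_le_of_ne z.1.2 (fun h => z.2 (Subtype.ext h.symm))
  have hbas : AlgebraicIndependent ℚ
      (fun z : {b : NG // b ≠ ⟨0, le_rfl⟩} => EA (1 / n) 1 (((z.1.1 : ℚ) : ℝ) ^ n)) := by
    let f : {b : NG // b ≠ ⟨0, le_rfl⟩} → Option PI := fun z =>
      some ⟨(0, 1 / n, z.1.1 ^ n), by positivity, by
        show (1 : ℚ) / n < 1
        rw [div_lt_one hn0]; exact hn1, pow_pos (hpos z) n⟩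
    have hf : Function.Injective f := by
      intro z z' h
      simp only [f, Option.some.injEq, Subtype.mk.injEq, Prod.mk.injEq, true_and] at h
      have h1 : z.1.1 = z'.1.1 := (pow_left_inj₀ z.1.2 z'.1.2 (by omega)).1 h
      exact Subtype.ext (Subtype.ext h1)
    have h2 := EA_alg_Q.comp f hf
    convert h2 using 1
    funext z
    simp [f]
  refine algebraicIndependent_of_finite_type fun t ht => ?_
  have hfin : Fintype t := ht.fintype
  have hx : AlgebraicIndependent ℚ (fun z : t => EA (1 / n) 1 ((((z : {b : NG // b ≠ ⟨0, le_rfl⟩}).1.1 : ℚ) : ℝ) ^ n)) :=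
    hbas.comp _ Subtype.val_injective
  refine indep_of_span hx (fun z => ?_) le_rfl
  set R := Set.range (fun z : t => off n (z : {b : NG // b ≠ ⟨0, le_rfl⟩})) with hR
  have hs0 : (0 : ℝ) < ((z : {b : NG // b ≠ ⟨0, le_rfl⟩}).1.1 : ℚ) := by exact_mod_cast hpos z.1
  have h1 : (((z : {b : NG // b ≠ ⟨0, le_rfl⟩}).1.1 : ℚ) : ℝ) *
      (n - EA (1 / n) 1 ((((z : {b : NG // b ≠ ⟨0, le_rfl⟩}).1.1 : ℚ) : ℝ) ^ n)) ∈ clF R :=
    subset_clF R ⟨z, rfl⟩
  have h2 := (clF R).div_mem h1 (rat_mem R ((z : {b : NG // b ≠ ⟨0, le_rfl⟩}).1.1))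
  rw [mul_div_cancel_left₀ _ hs0.ne'] at h2
  have h3 : (n : ℝ) ∈ clF R := by exact_mod_cast rat_mem R (n : ℚ)
  have h4 := (clF R).sub_mem h3 h2
  rw [sub_sub_cancel] at h4
  exact h4

/-- **One number against several.** -/
theorem main (n : ℕ) (hn : 2 ≤ n) {m : ℕ} (a : Fin (m + 1) → NG) (ha : Function.Injective a) (D : ℕ) :
    ∃ (κ : ℕ) (C : ℝ), 0 < C ∧ ∀ (P : Polynomial ℤ) (Q : MvPolynomial (Fin m) ℤ), P ≠ 0 → Q ≠ 0 →
      P.natDegree ≤ D → Q.totalDegree ≤ D → ∀ H : ℝ, 1 ≤ H →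
      (∀ i, |((P.coeff i : ℤ) : ℝ)| ≤ H) → (∀ s, |((MvPolynomial.coeff s Q : ℤ) : ℝ)| ≤ H) →
      C ≤ H ^ κ * max |Polynomial.aeval (T n (a 0)) P| |MvPolynomial.aeval (fun j : Fin m => T n (a j.succ)) Q| := by
  classical
  have hn1 : (1 : ℚ) < n := by exact_mod_cast (by omega : 1 < n)
  have hn0 : (0 : ℚ) < n := by linarith
  let X : Fin (m + 1) → ℚ := fun j => if (a j).1 = 0 then 1 else (a j).1
  let S : Finset (ℚ × ℚ) := Finset.univ.image fun j => ((1 / n : ℚ), X j ^ n)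
  have hXpos : ∀ j, 0 < X j := by
    intro j
    show 0 < if (a j).1 = 0 then (1 : ℚ) else (a j).1
    split_ifs with h
    · exact one_pos
    · exact lt_of_le_of_ne (a j).2 (Ne.symm h)
  have hS : ∀ p ∈ S, 0 ≤ p.1 ∧ p.1 < 1 ∧ 0 < p.2 := by
    intro p hp
    obtain ⟨j, _, rfl⟩ := Finset.mem_image.1 hp
    refine ⟨by positivity, ?_, pow_pos (hXpos j) n⟩
    show (1 : ℚ) / n < 1
    rw [div_lt_one hn0]; exact hn1
  set N : ℕ := ∏ j, (X j).den with hN
  have hN0 : N ≠ 0 := Finset.prod_ne_zero_iff.2 fun j _ => (X j).den_ne_zero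
  have h := names_main (⟨0, le_rfl⟩ : NG) (off n) (by simp [off]) (off_indep n hn) (Real.Gamma (1 / n)) 1 a ha S hS N hN0
    (fun B g hg heg hexp hE j => by
      have h1 : EA (1 / n) 1 ((X j : ℝ) ^ n) ∈ B := by
        have := hE ((1 / n : ℚ), X j ^ n) (Finset.mem_image_of_mem _ (Finset.mem_univ j)) 1 le_rfl le_rfl
        push_cast at this
        exact this
      have hNX : ((N : ℝ) * (X j : ℝ)) ∈ B := by
        obtain ⟨d, hd⟩ := Finset.dvd_prod_of_mem (fun j => (X j).den) (Finset.mem_univ j)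
        have h2 : (N : ℚ) * X j = ((d * (X j).num : ℤ) : ℚ) := by
          have h3 : (N : ℚ) = ((X j).den : ℚ) * d := by
            rw [hN, hd]; push_cast; rfl
          have h4 : X j * (X j).den = (X j).num := Rat.mul_den_eq_num (X j)
          push_cast
          rw [h3, ← h4]
          ring
        have h5 : (N : ℝ) * (X j : ℝ) = ((d * (X j).num : ℤ) : ℝ) := by
          have := congrArg (fun z : ℚ => (z : ℝ)) h2
          push_cast at this ⊢
          exact this
        rw [h5]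
        exact intCast_mem B _
      by_cases h0 : (a j).1 = 0
      · have e0 : off n (a j) = 0 := by
          rw [off, h0]; simp
        rw [e0, zero_mul]
        exact B.zero_mem
      · have hXx : X j = (a j).1 := if_neg h0
        rw [hXx] at h1 hNX
        have e1 : off n (a j) * (N * g) = (N * (((a j).1 : ℚ) : ℝ)) *
            ((n - EA (1 / n) 1 ((((a j).1 : ℚ) : ℝ) ^ n)) * g) := by
          rw [off]; ring
        rw [e1]
        exact B.mul_mem hNX (B.mul_mem (B.sub_mem (natCast_mem B n) h1) hg)) D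
  obtain ⟨κ, C, hC, hm⟩ := h
  refine ⟨κ, C, hC, fun P Q hP hQ hPD hQD H hH hPH hQH => ?_⟩
  have h1 := hm P Q hP hQ hPD hQD H hH hPH hQH
  simp only [← T_eq n hn] at h1
  exact h1

theorem result (n : ℕ) (hn : 2 ≤ n) (m D : ℕ) (s : Fin (m + 1) → ℚ) (hs : Function.Injective s) (hpos : ∀ j, 0 ≤ s j) :
    ∃ (κ : ℕ) (c : ℝ), 0 < c ∧ ∀ (H : ℕ) (P : Polynomial ℤ) (Q : MvPolynomial (Fin m) ℤ),
      P ≠ 0 → P.natDegree ≤ D → (∀ i, |P.coeff i| ≤ (H : ℤ)) →
      Q ≠ 0 → Q.totalDegree ≤ D → (∀ r, |MvPolynomial.coeff r Q| ≤ (H : ℤ)) →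
      c / (H : ℝ) ^ κ ≤ max |Polynomial.aeval (T n (s 0)) P|
        |MvPolynomial.aeval (fun j : Fin m => T n (s j.succ)) Q| := by
  obtain ⟨κ, c, hc, h⟩ := main n hn (fun j => (⟨s j, hpos j⟩ : NG)) (fun i j hij => hs (congrArg Subtype.val hij)) D
  refine ⟨κ, c, hc, fun H P Q hP hPD hPH hQ hQD hQH => ?_⟩
  have hH : 1 ≤ H := by
    by_contra h0
    have hH0 : H = 0 := by omega
    apply hP
    ext i
    have h1 := hPH i
    rw [hH0, Nat.cast_zero] at h1
    rw [Polynomial.coeff_zero]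
    exact abs_eq_zero.1 (le_antisymm h1 (abs_nonneg _))
  have hH' : (1 : ℝ) ≤ H := by exact_mod_cast hH
  have h1 := h P Q hP hQ hPD hQD H hH' (fun i => by exact_mod_cast hPH i) (fun r => by exact_mod_cast hQH r)
  rw [div_le_iff₀ (by positivity), mul_comm]
  exact h1

end Pool.Agent.Results.MP_bb5a7d_nt.JointMeasureOfTails
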